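import Mathlib
import Pool.Agent.V11260.CP.Z1

/-!
# Eigenvalue sums exceeding `ħ^{-d}` for a complex potential, in every dimension
-/

namespace Pool.Agent.Results.MP_c84763_mp.AllTriples
open MeasureTheory FourierTransform Filter Topology
open scoped ENNReal

/-- `ℝᵈ` with the Euclidean norm -/
def Rd (d : ℕ) : Type := EuclideanSpace ℝ (Fin d)

noncomputable instance (d : ℕ) : Norm (Rd d) :=
  (inferInstance : Norm (EuclideanSpace ℝ (Fin d)))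

/-- `ℝᵈ` carries Lebesgue measure, Mathlib's `volume` -/
noncomputable instance (d : ℕ) : MeasureSpace (Rd d) :=
  (inferInstance : MeasureSpace (EuclideanSpace ℝ (Fin d)))

/-- `L²(ℝᵈ; ℂ)` -/
def L2 (d : ℕ) : Type := Lp ℂ 2 (volume : Measure (Rd d))

noncomputable instance (d : ℕ) : AddCommGroup (L2 d) :=
  (inferInstance : AddCommGroup (Lp ℂ 2 (volume : Measure (Rd d))))

noncomputable instance (d : ℕ) : Module ℂ (L2 d) :=
  (inferInstance : Module ℂ (Lp ℂ 2 (volume : Measure (Rd d))))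

/-- the function `u` -/
noncomputable def fn {d : ℕ} (u : L2 d) : Rd d → ℂ :=
  ((show Lp ℂ 2 (volume : Measure (Rd d)) from u) : Rd d → ℂ)

/-- the unitary Fourier transform on `L²(E)`, `û(ξ) = ∫ e^{-2πi x·ξ} u(x) dx` -/
noncomputable def fourierE (E : Type) [NormedAddCommGroup E] [InnerProductSpace ℝ E]
    [FiniteDimensional ℝ E] [MeasurableSpace E] [BorelSpace E]
    (u : Lp ℂ 2 (volume : Measure E)) : Lp ℂ 2 (volume : Measure E) := 𝓕 u

/-- the unitary Fourier transform on `L²(ℝᵈ)` -/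
noncomputable def fourier {d : ℕ} (u : L2 d) : L2 d := fourierE (EuclideanSpace ℝ (Fin d)) u

/-- the function `û` -/
noncomputable def hat {d : ℕ} (u : L2 d) : Rd d → ℂ := fn (fourier u)

/-- `u ∈ H¹(ℝᵈ)`: `|ξ| û ∈ L²` -/
def InH1 {d : ℕ} (u : L2 d) : Prop := MemLp (fun ξ : Rd d => (‖ξ‖ : ℂ) * hat u ξ) 2 volume

/-- `∫ ∇u · conj ∇φ = ∫ (2π|ξ|)² û conj φ̂` -/
noncomputable def dirichlet {d : ℕ} (u φ : L2 d) : ℂ :=
  ∫ ξ : Rd d, (((2 * Real.pi * ‖ξ‖) ^ 2 : ℝ) : ℂ) * hat u ξ * (starRingEnd ℂ) (hat φ ξ)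

/-- `W u conj φ` -/
noncomputable def potential {d : ℕ} (W : Rd d → ℂ) (u φ : L2 d) (x : Rd d) : ℂ :=
  W x * fn u x * (starRingEnd ℂ) (fn φ x)

/-- the inner product `∫ f conj φ` -/
noncomputable def pairing {d : ℕ} (f φ : L2 d) : ℂ := ∫ x, fn f x * (starRingEnd ℂ) (fn φ x)

/-- `u ∈ D(H)` and `H u = f`, where `H = -h²Δ + W` is the m-sectorial operator of the form
`h² ∫ ∇u · conj ∇φ + ∫ W u conj φ` on `H¹(ℝᵈ)` -/
def IsHu {d : ℕ} (h : ℝ) (W : Rd d → ℂ) (u f : L2 d) : Prop :=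
  InH1 u ∧ ∀ φ : L2 d, InH1 φ → Integrable (potential W u φ) volume ∧
    ((h ^ 2 : ℝ) : ℂ) * dirichlet u φ + ∫ x, potential W u φ x = pairing f φ

/-- `u` is a generalised eigenvector for `E` (or `0`): `(H - E)ⁿ u = 0` for some `n` -/
def IsGen {d : ℕ} (h : ℝ) (W : Rd d → ℂ) (E : ℂ) (u : L2 d) : Prop :=
  ∃ (n : ℕ) (c : ℕ → L2 d), c 0 = u ∧ c n = 0 ∧ ∀ i < n, IsHu h W (c i) (c (i + 1) + E • c i)

/-- the generalised eigenspace of `E` -/
noncomputable def genSpace {d : ℕ} (h : ℝ) (W : Rd d → ℂ) (E : ℂ) : Submodule ℂ (L2 d) :=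
  Submodule.span ℂ {u | IsGen h W E u}

/-- the algebraic multiplicity of `E` (`0` if `E` is not an eigenvalue) -/
noncomputable def algMult {d : ℕ} (h : ℝ) (W : Rd d → ℂ) (E : ℂ) : ℕ :=
  Module.finrank ℂ (genSpace h W E)

/-- `δ(E)`, the distance from `E` to the half-line `[0,∞)` -/
noncomputable def delta (E : ℂ) : ℝ := Metric.infDist E {z : ℂ | 0 ≤ z.re ∧ z.im = 0}

/-- `S_{γ,σ}(W, h) = ∑_j |E_j|^{-σ} δ(E_j)^{γ+σ}`, each `E` counted with its algebraic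
multiplicity -/
noncomputable def eigSum {d : ℕ} (h : ℝ) (W : Rd d → ℂ) (γ σ : ℝ) : ℝ≥0∞ :=
  ∑' E : ℂ, (algMult h W E : ℝ≥0∞) * ENNReal.ofReal (‖E‖ ^ (-σ) * delta E ^ (γ + σ))

open Classical in
/-- the potential `V(x) = log (1 / (1 - |x|)) + i` for `|x| < 1`, `V(x) = 0` for `|x| ≥ 1` -/
noncomputable def V {d : ℕ} (x : Rd d) : ℂ :=
  if ‖x‖ < 1 then ((-Real.log (1 - ‖x‖) : ℝ) : ℂ) + Complex.I else 0

/-- `V` is supported in the unit ball and lies in every `Lᵖ`, `p < ∞`; off `[0, ∞)` the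
eigenvalues of `-h²Δ + V` have finite algebraic multiplicity and do not accumulate; and for all
`γ > 0`, `0 ≤ σ ≤ d/2` the product `h^d S_{γ,σ}(V, h)` tends to infinity as `h → 0`. -/
theorem result (d : ℕ) (hd : 1 ≤ d) :
    (∀ x : Rd d, 1 ≤ ‖x‖ → V x = 0) ∧
    (∀ p : ℝ≥0∞, p ≠ ⊤ → MemLp (V : Rd d → ℂ) p volume) ∧
    (∀ h : ℝ, 0 < h →
      (∀ E : ℂ, 0 < delta E → Module.Finite ℂ (genSpace h (V : Rd d → ℂ) E)) ∧
      ∀ ε : ℝ, 0 < ε →
        {E : ℂ | ε ≤ delta E ∧ ‖E‖ ≤ ε⁻¹ ∧ algMult h (V : Rd d → ℂ) E ≠ 0}.Finite) ∧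
    ∀ γ σ : ℝ, 0 < γ → 0 ≤ σ → σ ≤ (d : ℝ) / 2 →
      Tendsto (fun h : ℝ => ENNReal.ofReal (h ^ d) * eigSum h (V : Rd d → ℂ) γ σ)
        (𝓝[>] 0) (𝓝 ⊤) := by
  have hVp : ∀ p : ℝ≥0∞, p ≠ ⊤ → MemLp (V : Rd d → ℂ) p volume := fun p hp =>
    Pool.Agent.V11260.CP.VV_memLp hd p hp
  -- the generalised eigenspaces
  let R : ℝ → Submodule ℂ (L2 d × L2 d) := fun h =>
    { carrier := {p | Helper209.CX.IsHu h V p.1 p.2}
      add_mem' := fun {a b} ha hb => Helper209.CX.K31.isHu_add h V a.1 b.1 a.2 b.2 ha hb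
      zero_mem' := Helper209.CX.K31.isHu_zero_zero h V
      smul_mem' := fun c a ha => Helper209.CX.K31.isHu_smul h V c a.1 a.2 ha }
  have hR : ∀ h, ∀ f : L2 d, ((0 : L2 d), f) ∈ R h → f = 0 := fun h f hf =>
    Helper209.CX.K31.isHu_zero h V f hf
  choose G hG using fun h E => Helper209.CX.K30.gen_submodule (R h) E
  have hspan : ∀ h E, genSpace h (V : Rd d → ℂ) E = G h E := by
    intro h E
    have : {u | IsGen h (V : Rd d → ℂ) E u} = (G h E : Set (L2 d)) := by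
      ext u
      exact (hG h E u).symm
    rw [genSpace, this, Submodule.span_eq]
  have hm : ∀ h E, algMult h (V : Rd d → ℂ) E = Module.finrank ℂ (G h E) := fun h E => by
    rw [algMult, hspan]
  have hσ1 : (d : ℝ) / 2 < (d : ℝ) / 2 + 1 := by linarith
  obtain ⟨C, hC, H⟩ := Helper209.CX.final_D d hd (3 / 4) ((d : ℝ) / 2 + 1) (by norm_num)
    (by norm_num) hσ1
  have key : ∀ h : ℝ, 0 < h → _ := fun h hh =>
    Helper209.CX.K30.gen_bound (R h) (hR h)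
      (fun E => ‖E‖ ^ (-((d : ℝ) / 2 + 1)) * delta E ^ (3 / 4 + ((d : ℝ) / 2 + 1)))
      (fun E => mul_nonneg (Real.rpow_nonneg (norm_nonneg _) _)
        (Real.rpow_nonneg Metric.infDist_nonneg _))
      (C * h ^ (-(d : ℝ)) * ∫ x, ‖(V : Rd d → ℂ) x‖ ^ (3 / 4 + (d : ℝ) / 2))
      (fun N u A hli hu => H h hh V (hVp _ ENNReal.ofReal_ne_top) N u A hli hu) (G h) (hG h)
  have hne : ∀ E : ℂ, 0 < delta E → E ≠ 0 := by
    rintro E hE rfl
    have : delta 0 = 0 := Metric.infDist_zero_of_mem (by simp)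
    exact absurd hE (by rw [this]; exact lt_irrefl 0)
  have hfin : ∀ h : ℝ, 0 < h → ∀ E : ℂ, 0 < delta E → Module.Finite ℂ (G h E) := by
    intro h hh E hE
    exact (key h hh).1 E (mul_pos (Real.rpow_pos_of_pos (norm_pos_iff.2 (hne E hE)) _)
      (Real.rpow_pos_of_pos hE _))
  refine ⟨fun x hx => if_neg (not_lt.2 hx), hVp, fun h hh => ⟨fun E hE => ?_, fun ε hε => ?_⟩, ?_⟩
  · rw [hspan]
    exact hfin h hh E hE
  · have h1 := (key h hh).2
    set s : ℝ := (d : ℝ) / 2 + 1 with hs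
    have hs0 : 0 < s := by positivity
    have hc : 0 < (ε⁻¹) ^ (-s) * ε ^ (3 / 4 + s) := by positivity
    have h2 := ENNReal.finite_const_le_of_tsum_ne_top (ne_top_of_le_ne_top ENNReal.ofReal_ne_top h1)
      (ε := ENNReal.ofReal ((ε⁻¹) ^ (-s) * ε ^ (3 / 4 + s)))
      (by rw [Ne, ENNReal.ofReal_eq_zero, not_le]; exact hc)
    refine h2.subset ?_
    rintro E ⟨hE1, hE2, hE3⟩
    have hE0 : 0 < ‖E‖ := norm_pos_iff.2 (hne E (lt_of_lt_of_le hε hE1))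
    have h3 : (ε⁻¹) ^ (-s) * ε ^ (3 / 4 + s) ≤ ‖E‖ ^ (-s) * delta E ^ (3 / 4 + s) :=
      mul_le_mul (Real.rpow_le_rpow_of_nonpos hE0 hE2 (by linarith))
        (Real.rpow_le_rpow hε.le hE1 (by positivity)) (by positivity) (by positivity)
    rw [hm] at hE3
    have h4 : (1 : ℝ≥0∞) ≤ ((Module.finrank ℂ (G h E) : ℕ) : ℝ≥0∞) := by
      exact_mod_cast Nat.one_le_iff_ne_zero.2 hE3
    calc ENNReal.ofReal ((ε⁻¹) ^ (-s) * ε ^ (3 / 4 + s))
        ≤ ENNReal.ofReal (‖E‖ ^ (-s) * delta E ^ (3 / 4 + s)) := ENNReal.ofReal_le_ofReal h3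
      _ = 1 * ENNReal.ofReal (‖E‖ ^ (-s) * delta E ^ (3 / 4 + s)) := (one_mul _).symm
      _ ≤ _ := mul_le_mul_left h4 _
  · intro γ σ hγ hσ0 hσ
    obtain ⟨c1, hc1, hlarge⟩ := Pool.Agent.V11260.CP.sum_large d hd γ σ hγ hσ0 hσ
    rw [ENNReal.tendsto_nhds_top_iff_nnreal]
    intro x
    obtain ⟨L, hL⟩ := exists_nat_gt ((x : ℝ) / c1)
    filter_upwards [hlarge L, self_mem_nhdsWithin] with h h1 h2
    have hh : 0 < h := h2
    have h3 := h1 (G h) (hG h) (hfin h hh)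
    have h4 : eigSum h (V : Rd d → ℂ) γ σ = ∑' E : ℂ, ((Module.finrank ℂ (G h E) : ℕ) : ℝ≥0∞) *
        ENNReal.ofReal (‖E‖ ^ (-σ) * Pool.Agent.V11260.CP.del E ^ (γ + σ)) := by
      unfold eigSum
      simp only [hm]
      rfl
    rw [h4]
    refine lt_of_lt_of_le ?_ (mul_le_mul_right h3 _)
    rw [← ENNReal.ofReal_mul (by positivity), mul_div_cancel₀ _ (by positivity)]
    rw [div_lt_iff₀ hc1] at hL
    rw [← ENNReal.ofReal_coe_nnreal]
    apply (ENNReal.ofReal_lt_ofReal_iff (by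
      have : (0 : ℝ) ≤ x := x.2
      linarith)).2
    linarith

end Pool.Agent.Results.MP_c84763_mp.AllTriples
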